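import Mathlib

/-!
# Graphs of average degree `2k - 2` are not uniquely `k`-list colourable

Let `G` have `n` vertices and `(k - 1) n` edges, `k ≥ 2`, and let `p` be a prime divisor of `k`.
The graph polynomial `P = ∏ (x_u - x_v)` is killed by the derivation `∑ ∂/∂x_v`; comparing
coefficients, the coefficient of `∏ x_v^(k-1)` is divisible by `k`, so it vanishes in
characteristic `p`. If there were exactly one colouring `c` from lists of size `k` (embedded in a
field of characteristic `p`), then `P - α ∏ ∏ (x_v - s)` would vanish on the whole grid for some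
`α ≠ 0`, against the combinatorial Nullstellensatz.
-/

set_option autoImplicit false

namespace Pool.Agent.Results.MP_e14bb7_co.PropertyM

open MvPolynomial Finset

/-- `c` is a proper colouring of `G` from the lists `S`. -/
def IsListColouring {V : Type} (G : SimpleGraph V) (S : V → Finset ℕ) (c : V → ℕ) : Prop :=
  (∀ v, c v ∈ S v) ∧ ∀ u v, G.Adj u v → c u ≠ c v

/-- `G` is uniquely `k`-list colourable: for some lists of size `k` there is exactly one proper
colouring from the lists. -/
def UniquelyListColourable {V : Type} (G : SimpleGraph V) (k : ℕ) : Prop :=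
  ∃ S : V → Finset ℕ, (∀ v, (S v).card = k) ∧ ∃! c : V → ℕ, IsListColouring G S c

/-- Property `M(k)`: not uniquely `k`-list colourable. -/
def HasPropertyM {V : Type} (G : SimpleGraph V) (k : ℕ) : Prop := ¬ UniquelyListColourable G k

section poly

variable {V : Type} [Fintype V] (G : SimpleGraph V) [DecidableRel G.Adj]
variable (F : Type) [Field F]

/-- the graph polynomial -/
noncomputable def gpoly : MvPolynomial V F :=
  ∏ e ∈ G.edgeFinset, (X (Quot.out e).1 - X (Quot.out e).2)

theorem sum_pderiv_gpoly : ∑ v : V, pderiv v (gpoly G F) = 0 := by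
  unfold gpoly
  apply Finset.prod_induction _ (fun f : MvPolynomial V F => ∑ v : V, pderiv v f = 0)
  · intro f g hf hg
    have : ∀ v : V, pderiv v (f * g) = pderiv v f * g + f * pderiv v g := fun v => pderiv_mul
    simp only [this]
    rw [Finset.sum_add_distrib, ← Finset.sum_mul, ← Finset.mul_sum, hf, hg]
    ring
  · simp
  · intro e _
    have : ∀ u : V, ∑ v : V, pderiv v (X u : MvPolynomial V F) = 1 := by
      intro u
      rw [Finset.sum_eq_single u]
      · exact pderiv_X_self u
      · intro v _ hv
        exact pderiv_X_of_ne hv.symm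
      · intro h; exact absurd (Finset.mem_univ u) h
    simp only [map_sub]
    rw [Finset.sum_sub_distrib, this, this, sub_self]

/-- the exponent `(k - 1, ..., k - 1)` -/
noncomputable def expo (V : Type) [Fintype V] (k : ℕ) : V →₀ ℕ :=
  Finsupp.equivFunOnFinite.symm fun _ => k - 1

theorem coeff_gpoly (k : ℕ) (hk : 2 ≤ k) (hF : (k : F) = 0) [Nonempty V] :
    coeff (expo V k) (gpoly G F) = 0 := by
  classical
  obtain ⟨u⟩ := ‹Nonempty V›
  let m : V →₀ ℕ := Finsupp.equivFunOnFinite.symm fun v => if v = u then k - 2 else k - 1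
  have hm : m + Finsupp.single u 1 = expo V k := by
    ext v
    simp only [m, expo, Finsupp.add_apply, Finsupp.equivFunOnFinite_symm_apply_apply]
    by_cases h : v = u
    · subst h; simp; omega
    · simp [h]
  have h1 := congrArg (coeff m) (sum_pderiv_gpoly G F)
  rw [coeff_sum, coeff_zero] at h1
  simp only [coeff_pderiv] at h1
  rw [Finset.sum_eq_single u] at h1
  · rw [hm] at h1
    have h2 : ((m u : ℕ) : F) + 1 = -1 := by
      have h3 : m u + 1 + 1 = k := by simp [m]; omega
      have h4 : ((m u : ℕ) : F) + 1 + 1 = 0 := by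
        rw [← hF, ← h3]; push_cast; ring
      linear_combination h4
    rw [h2] at h1
    simpa using h1
  · intro v _ hv
    have h3 : m v + 1 = k := by simp [m, hv]; omega
    have h4 : ((m v : ℕ) : F) + 1 = 0 := by rw [← hF, ← h3]; push_cast; ring
    rw [h4, mul_zero]
  · intro h; exact absurd (Finset.mem_univ u) h

theorem eval_gpoly_ne (x : V → F) : eval x (gpoly G F) ≠ 0 ↔ ∀ u v, G.Adj u v → x u ≠ x v := by
  unfold gpoly
  rw [map_prod, Finset.prod_ne_zero_iff]
  constructor
  · intro h u v huv
    have h1 := h s(u, v) (by rw [SimpleGraph.mem_edgeFinset]; exact huv)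
    have h2 : s((Quot.out s(u, v)).1, (Quot.out s(u, v)).2) = s(u, v) := Quot.out_eq _
    rw [map_sub, eval_X, eval_X, sub_ne_zero] at h1
    rw [Sym2.eq_iff] at h2
    rcases h2 with ⟨h3, h4⟩ | ⟨h3, h4⟩
    · rwa [h3, h4] at h1
    · rw [h3, h4] at h1; exact h1.symm
  · intro h e he
    rw [map_sub, eval_X, eval_X, sub_ne_zero]
    apply h
    have h2 : s((Quot.out e).1, (Quot.out e).2) = e := Quot.out_eq _
    rw [SimpleGraph.mem_edgeFinset, ← h2] at he
    exact he

theorem totalDegree_gpoly : (gpoly G F).totalDegree ≤ G.edgeFinset.card := by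
  unfold gpoly
  refine (totalDegree_finsetProd _ _).trans ?_
  rw [Finset.card_eq_sum_ones]
  refine Finset.sum_le_sum fun e _ => ?_
  refine (totalDegree_sub _ _).trans ?_
  simp [totalDegree_X]

/-- the product over all vertices of the monic polynomials with roots `S v` -/
noncomputable def rpoly (S : V → Finset F) : MvPolynomial V F :=
  ∏ v : V, ∏ s ∈ S v, (X v - C s)

theorem coeff_rpoly (k : ℕ) (S : V → Finset F) (hS : ∀ v, (S v).card = k - 1) :
    coeff (expo V k) (rpoly F S) = 1 := by
  let _ : LinearOrder V := WellOrderingRel.isWellOrder.linearOrder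
  let m : MonomialOrder V := MonomialOrder.degLex
  have hmon : ∀ v, m.Monic (∏ s ∈ S v, (X v - C s) : MvPolynomial V F) := fun v =>
    MonomialOrder.Monic.prod fun s _ => m.monic_X_sub_C v s
  have h1 : m.Monic (rpoly F S) := MonomialOrder.Monic.prod fun v _ => hmon v
  have h2 : m.degree (rpoly F S) = expo V k := by
    unfold rpoly
    rw [MonomialOrder.degree_prod]
    · have h3 : ∀ v : V, m.degree (∏ s ∈ S v, (X v - C s) : MvPolynomial V F) =
          Finsupp.single v (k - 1) := by
        intro v
        rw [MonomialOrder.degree_prod]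
        · simp only [m.degree_X_sub_C, Finset.sum_const, hS]
          rw [Finsupp.smul_single]
          simp
        · intro s _
          exact (m.monic_X_sub_C v s).ne_zero
      simp only [h3]
      ext u
      rw [Finsupp.finsetSum_apply, Finset.sum_eq_single u]
      · simp [expo]
      · intro v _ hv
        exact Finsupp.single_eq_of_ne hv.symm
      · intro h; exact absurd (Finset.mem_univ u) h
    · intro v _
      exact (hmon v).ne_zero
  have h3 : m.leadingCoeff (rpoly F S) = 1 := h1
  rw [← h2]
  exact h3

theorem totalDegree_rpoly (k : ℕ) (S : V → Finset F) (hS : ∀ v, (S v).card = k - 1) :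
    (rpoly F S).totalDegree ≤ (k - 1) * Fintype.card V := by
  unfold rpoly
  refine (totalDegree_finsetProd _ _).trans ?_
  have : ∀ v : V, (∏ s ∈ S v, (X v - C s) : MvPolynomial V F).totalDegree ≤ k - 1 := by
    intro v
    refine (totalDegree_finsetProd _ _).trans ?_
    rw [← hS v, Finset.card_eq_sum_ones]
    refine Finset.sum_le_sum fun s _ => ?_
    refine (totalDegree_sub _ _).trans ?_
    simp [totalDegree_X]
  refine (Finset.sum_le_sum fun v _ => this v).trans ?_
  simp [mul_comm]

end poly

/-- **Average degree `2k - 2` implies property `M(k)`.** For every `k ≥ 2`, every finite graph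
(with at least one vertex) whose average degree `2|E|/|V|` equals `2k - 2` is not uniquely
`k`-list colourable. -/
theorem result (k : ℕ) (hk : 2 ≤ k) (V : Type) [Fintype V] [Nonempty V] (G : SimpleGraph V)
    (hG : 2 * (Nat.card G.edgeSet : ℚ) / Fintype.card V = 2 * k - 2) : HasPropertyM G k := by
  classical
  rintro ⟨S, hS, c, ⟨hc1, hc2⟩, hcu⟩
  have hE : G.edgeFinset.card = (k - 1) * Fintype.card V := by
    have h1 : (Fintype.card V : ℚ) ≠ 0 := by exact_mod_cast Fintype.card_ne_zero
    rw [div_eq_iff h1] at hG
    have h2 : Nat.card G.edgeSet = G.edgeFinset.card := by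
      rw [Nat.card_eq_fintype_card, SimpleGraph.edgeFinset_card]
    rw [h2] at hG
    have h3 : ((G.edgeFinset.card : ℕ) : ℚ) = ((k - 1 : ℕ) : ℚ) * Fintype.card V := by
      rw [Nat.cast_sub (by omega)]
      push_cast
      linarith
    exact_mod_cast h3
  -- the field
  have hp : Fact k.minFac.Prime := ⟨Nat.minFac_prime (by omega)⟩
  let F := AlgebraicClosure (ZMod k.minFac)
  have hchar : CharP F k.minFac := by
    exact charP_of_injective_algebraMap (algebraMap (ZMod k.minFac) F).injective k.minFac
  have hkF : (k : F) = 0 := (CharP.cast_eq_zero_iff F k.minFac k).mpr (Nat.minFac_dvd k)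
  let ι : ℕ ↪ F := Infinite.natEmbedding F
  let T : V → Finset F := fun v => (S v).map ι
  let x₀ : V → F := fun v => ι (c v)
  let R : MvPolynomial V F := rpoly F fun v => (T v).erase (x₀ v)
  have hT : ∀ v, ((T v).erase (x₀ v)).card = k - 1 := by
    intro v
    rw [Finset.card_erase_of_mem, Finset.card_map, hS]
    exact Finset.mem_map_of_mem ι (hc1 v)
  have hPx : eval x₀ (gpoly G F) ≠ 0 := by
    rw [eval_gpoly_ne]
    intro u v huv h
    exact hc2 u v huv (ι.injective h)
  have hevR : ∀ x : V → F, eval x R = ∏ v, ∏ s ∈ (T v).erase (x₀ v), (x v - s) := by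
    intro x
    simp only [R, rpoly, map_prod, map_sub, eval_X, eval_C]
  have hRx : eval x₀ R ≠ 0 := by
    rw [hevR, Finset.prod_ne_zero_iff]
    intro v _
    rw [Finset.prod_ne_zero_iff]
    intro s hs
    rw [sub_ne_zero]
    exact (Finset.ne_of_mem_erase hs).symm
  let α : F := eval x₀ (gpoly G F) / eval x₀ R
  have hα : α ≠ 0 := div_ne_zero hPx hRx
  let Q : MvPolynomial V F := gpoly G F - C α * R
  have hcoeff : coeff (expo V k) Q = -α := by
    simp only [Q, coeff_sub, coeff_C_mul]
    rw [coeff_gpoly G F k hk hkF, coeff_rpoly F k _ hT]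
    ring
  have hdegt : (expo V k).degree = (k - 1) * Fintype.card V := by
    rw [Finsupp.degree_eq_sum]
    simp [expo, mul_comm]
  have hdeg : Q.totalDegree = (expo V k).degree := by
    apply le_antisymm
    · rw [hdegt]
      refine (totalDegree_sub _ _).trans (max_le ?_ ?_)
      · rw [← hE]; exact totalDegree_gpoly G F
      · refine (totalDegree_mul _ _).trans ?_
        rw [totalDegree_C, zero_add]
        exact totalDegree_rpoly F k _ hT
    · have : expo V k ∈ Q.support := by
        rw [mem_support_iff, hcoeff]
        exact neg_ne_zero.mpr hα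
      exact le_totalDegree this
  obtain ⟨x, hx1, hx2⟩ := combinatorial_nullstellensatz_exists_eval_nonzero Q (expo V k)
    (by rw [hcoeff]; exact neg_ne_zero.mpr hα) hdeg T (fun v => by
      have : (T v).card = k := by rw [Finset.card_map, hS]
      rw [this]
      simp [expo]
      omega)
  apply hx2
  by_cases hxx : x = x₀
  · rw [hxx]
    simp only [Q, map_sub, map_mul, eval_C, α]
    rw [div_mul_cancel₀ _ hRx, sub_self]
  · -- another point of the grid: both terms vanish
    have hR0 : eval x R = 0 := by
      obtain ⟨v, hv⟩ := Function.ne_iff.mp hxx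
      rw [hevR]
      refine Finset.prod_eq_zero (Finset.mem_univ v) ?_
      exact Finset.prod_eq_zero (i := x v) (Finset.mem_erase.mpr ⟨hv, hx1 v⟩) (sub_self _)
    have hP0 : eval x (gpoly G F) = 0 := by
      by_contra hne
      rw [← ne_eq, eval_gpoly_ne] at hne
      have h1 : ∀ v, ∃ a ∈ S v, ι a = x v := fun v => Finset.mem_map.mp (hx1 v)
      choose a ha1 ha2 using h1
      have h2 := hcu a ⟨ha1, fun u v huv h => hne u v huv (by rw [← ha2, ← ha2, h])⟩
      apply hxx
      funext v
      rw [← ha2, h2]
    simp only [Q, map_sub, map_mul, hR0, hP0, mul_zero, sub_zero]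

end Pool.Agent.Results.MP_e14bb7_co.PropertyM
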